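import Pool.Agent.Helper8_BRW.Stmts

/-! Modules G1, AMP and PROC2 of squad BRW (MP_02df95_pr). -/

set_option autoImplicit false

open MeasureTheory Set Filter

namespace BRW.H33

lemma exists_R (a : ℝ) (ha : 0 < a) : ∃ R : ℕ, 1 ≤ R ∧
    1 - Real.cos (Real.pi / (2 * R)) ≤ a / 2 := by
  obtain ⟨R, hR⟩ := exists_nat_ge (max 1 (Real.pi ^ 2 / (4 * a)))
  have h1 : (1 : ℝ) ≤ R := le_trans (le_max_left _ _) hR
  have h2 : Real.pi ^ 2 / (4 * a) ≤ R := le_trans (le_max_right _ _) hR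
  refine ⟨R, by exact_mod_cast h1, ?_⟩
  have h3 := Real.one_sub_sq_div_two_le_cos (x := Real.pi / (2 * R))
  have h4 : (Real.pi / (2 * R)) ^ 2 ≤ a := by
    have hR0 : (0 : ℝ) < R := by linarith
    rw [div_pow, div_le_iff₀ (by positivity)]
    rw [div_le_iff₀ (by positivity)] at h2
    nlinarith [mul_le_mul_of_nonneg_left h1 (show (0 : ℝ) ≤ R * (4 * a) by positivity)]
  linarith

theorem g1 (hG0 : G0Stmt) : G1Stmt := by
  intro a b n ha
  obtain ⟨R, hR1, hR2⟩ := exists_R a ha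
  set κ : ℝ := 1 - (1 - Real.cos (Real.pi / (2 * R))) / a with hκ
  have hκ2 : 1 / 2 ≤ κ := by
    have : (1 - Real.cos (Real.pi / (2 * R))) / a ≤ 1 / 2 := by
      rw [div_le_iff₀ ha]; linarith
    linarith
  have hκ0 : 0 < κ := by linarith
  set c : ℝ := Real.exp (-1) * (1 / 2) ^ R / R.factorial with hc
  have hc0 : 0 < c := by rw [hc]; positivity
  have hc1 : c ≤ 1 := by
    rw [hc, div_le_iff₀ (by positivity)]
    have h1 : Real.exp (-1) ≤ 1 := Real.exp_le_one_iff.2 (by norm_num)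
    have h2 : ((1 : ℝ) / 2) ^ R ≤ 1 := pow_le_one₀ (by norm_num) (by norm_num)
    have h3 : (1 : ℝ) ≤ R.factorial := by exact_mod_cast Nat.one_le_iff_ne_zero.2 (Nat.factorial_ne_zero R)
    have h4 : Real.exp (-1) * (1 / 2) ^ R ≤ 1 * 1 :=
      mul_le_mul h1 h2 (by positivity) (by norm_num)
    linarith
  set t : ℝ := |2 * n / c| / (a * κ) with ht
  have ht0 : 0 ≤ t := by rw [ht]; positivity
  set E : ℝ := Real.exp (a * κ * t) with hE
  have hE0 : 0 < E := Real.exp_pos _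
  have hE1 : 1 ≤ E := by
    rw [hE]; exact Real.one_le_exp (by positivity)
  have hEn : 2 * n ≤ c * E := by
    have h1 : a * κ * t + 1 ≤ E := Real.add_one_le_exp _
    have h2 : a * κ * t = |2 * n / c| := by
      rw [ht]; field_simp
    have h3 : 2 * n / c ≤ E := by
      have := le_abs_self (2 * n / c)
      linarith
    rw [div_le_iff₀ hc0] at h3
    linarith
  refine ⟨1 + t, min (1 / 2) (κ / (c * E)), by linarith, by positivity, min_le_left _ _, ?_⟩
  intro ξ hξ f u hu t0 p x0 ht00 hp0 hp hpu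
  rcases hp0.eq_or_lt with h0 | h0
  · rw [← h0, mul_zero]
    exact hu.nonneg _ _ (by linarith)
  have hp1 : p ≤ 1 / 2 := le_trans hp (min_le_left _ _)
  have hp2 : p ≤ κ / (c * E) := le_trans hp (min_le_right _ _)
  have hcpE : c * p * E ≤ κ := by
    rw [le_div_iff₀ (by positivity)] at hp2
    linarith
  have hcp : c * p ≤ κ := by nlinarith
  have key := hG0 a b ξ hξ f u hu R κ hR1 hκ hκ0 t0 p x0 ht00 h0 (by linarith) hpu t 0 ht0
    (by simp) (c * p) rfl hcp
  rw [← hE] at key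
  have hcos : Real.cos (Real.pi * ((0 : ℤ) : ℝ) / (2 * R)) = 1 := by simp
  rw [hcos, mul_one, add_zero] at key
  have hcp0 : 0 < c * p := mul_pos hc0 h0
  have hden0 : 0 < κ + c * p * (E - 1) := by
    have : 0 ≤ c * p * (E - 1) := mul_nonneg hcp0.le (by linarith)
    linarith
  have hden : κ + c * p * (E - 1) ≤ 2 * κ := by nlinarith
  have h5 : c * p * E / 2 ≤ κ * (c * p) * E / (κ + c * p * (E - 1)) := by
    rw [div_le_div_iff₀ (by norm_num) hden0]
    have h6 : 0 ≤ c * p * E := by positivity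
    nlinarith [mul_le_mul_of_nonneg_left hden h6]
  have h7 : n * p ≤ c * p * E / 2 := by nlinarith
  have h8 : t0 + (1 + t) = t0 + 1 + t := by ring
  rw [h8]
  linarith

theorem amp (hG1 : G1Stmt) (hG2 : G2Stmt) (hH : HalfStmt) : AmpStmt := by
  intro a b ε n ha hε hn
  obtain ⟨sA, p0, hsA, hp0, hp02, hA⟩ := hG1 a b (4 * n) ha
  obtain ⟨⟨s0, hs0, hH1⟩, hH2⟩ := hH a b ha
  obtain ⟨s1, hs1, hM⟩ := hH2 (1 / 2) (by norm_num)
  obtain ⟨s2, hs2, hB⟩ := hG2 a b (p0 / 2) ε ha (by linarith) hε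
  refine ⟨s0 + sA + max s1 s2, p0, ?_, hp0, hp02, ?_⟩
  · have : 0 < max s1 s2 := lt_of_lt_of_le hs1 (le_max_left _ _)
    linarith
  intro ξ hξ y v w hv hw t x ht
  have hm1 : s1 ≤ max s1 s2 := le_max_left _ _
  have hm2 : s2 ≤ max s1 s2 := le_max_right _ _
  set sM : ℝ := max s1 s2 with hsM
  have ht0 : 0 ≤ t - (s0 + sA + sM) := by linarith
  have h1 := hH1 ξ hξ y v w hv hw (t - (s0 + sA + sM)) x ht0
  constructor
  · intro hlt
    have h2 := hB ξ hξ (ind y) w hw (t - (s0 + sA + sM) + s0) x (sA + sM) (by linarith)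
      (by linarith) (by linarith)
    have h3 : t - (s0 + sA + sM) + s0 + (sA + sM) = t := by ring
    rw [h3] at h2
    exact h2
  · intro hle
    have hv0 := hv.nonneg (t - (s0 + sA + sM)) x ht0
    have h2 := hA ξ hξ (ind y) w hw (t - (s0 + sA + sM) + s0) (v (t - (s0 + sA + sM)) x / 2) x
      (by linarith) (by linarith) (by linarith) h1
    have h3 := hM ξ hξ y w hw (t - (s0 + sA + sM) + s0 + sA) x sM (by linarith) hm1
    have h4 : t - (s0 + sA + sM) + s0 + sA + sM = t := by ring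
    rw [h4] at h3
    linarith

theorem proc2 (hP : ProcStmt) (hE : EXNStmt) : Proc2Stmt := by
  intro a b ξ hξ y
  have hind : ∀ x, 0 ≤ ind y x ∧ ind y x ≤ 1 := by
    intro x; unfold ind; split_ifs <;> norm_num
  obtain ⟨u, hu, hlim⟩ := hE a b ξ hξ univ (ind y) hind
  refine ⟨u, hu, ?_⟩
  intro z t ht
  have hset : {ω : List Bool → ℝ × ℝ | ∃ l : List Bool,
      IsAlive ξ (z, 0, true) ω t l ∧ y ≤ (node ξ (z, 0, true) ω l).1}
      = ⋃ n : ℕ, {ω : List Bool → ℝ × ℝ | Ev ξ y n t z ω} := by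
    ext ω
    simp only [Set.mem_ofPred_eq, mem_iUnion]
    constructor
    · rintro ⟨l, h1, h2⟩
      exact ⟨l.length + 1, l, Nat.lt_succ_self _, h1, h2⟩
    · rintro ⟨n, l, -, h1, h2⟩
      exact ⟨l, h1, h2⟩
  have hmono : Monotone (fun n : ℕ => {ω : List Bool → ℝ × ℝ | Ev ξ y n t z ω}) := by
    intro m n hmn ω hω
    obtain ⟨l, h1, h2, h3⟩ := hω
    exact ⟨l, lt_of_lt_of_le h1 hmn, h2, h3⟩
  rw [hset]
  refine ⟨MeasurableSet.iUnion (fun n => (hP a b ξ hξ y z n t ht).1), ?_⟩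
  have h1 := tendsto_measure_iUnion_atTop (μ := treeLaw) hmono
  have h2 : Tendsto (fun n : ℕ => treeLaw {ω : List Bool → ℝ × ℝ | Ev ξ y n t z ω}) atTop
      (nhds (ENNReal.ofReal (u t z))) := by
    have h3 : (fun n : ℕ => treeLaw {ω : List Bool → ℝ × ℝ | Ev ξ y n t z ω})
        = fun n : ℕ => ENNReal.ofReal (iter ξ univ (ind y) n t z) := by
      funext n
      exact (hP a b ξ hξ y z n t ht).2
    rw [h3]
    exact (ENNReal.continuous_ofReal.tendsto _).comp (hlim t z ht).2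
  exact tendsto_nhds_unique h1 h2

end BRW.H33
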